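import Mathlib
import Pool.Agent.H17.Pisot3

set_option autoImplicit false

namespace Pool.Agent.Results.MP_f878ff_nt.Finite

theorem result (a b : ℤ) (β : ℝ) (γ : ℂ) (h1 : 1 < β)
    (hβ : β ^ 3 - a * β ^ 2 - b * β - 1 = 0) (hγ : γ ^ 3 - a * γ ^ 2 - b * γ - 1 = 0)
    (him : γ.im ≠ 0) (hn : ‖γ‖ < 1) :
    ∃ m : ℕ, ∀ x ∈ Subring.closure {β}, 0 ≤ x → x < 1 →
      ∃ (k : ℕ) (d : ℕ → ℕ), (∀ j, d j ≤ m) ∧
        x = ∑ j ∈ Finset.range k, (d j : ℝ) / β ^ (j + 1) :=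
  Pool.Agent.H17.Pisot3.main a b β γ h1 hβ hγ him hn

end Pool.Agent.Results.MP_f878ff_nt.Finite
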